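import Mathlib
import Pool.Agent.V1128.SL2.Basic

set_option autoImplicit false
set_option linter.unusedSimpArgs false

namespace Pool.Agent.Results.MP_847604_al.NoSuchSubgroup

open Pool.Agent.V1128.SL2 Matrix TopologicalSpace

instance : Fact (Nat.Prime 5) := ⟨by norm_num⟩

/-- The group `SL₂(ℤ_5)`. -/
abbrev G : Type := Matrix.SpecialLinearGroup (Fin 2) ℤ_[5]

theorem unit1 (t : ℤ_[5]) : IsUnit (1 + 5 * t) := by
  have h1 : (5 * t : ℤ_[5]) ∈ nonunits ℤ_[5] := by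
    rw [mem_nonunits_iff, PadicInt.isUnit_iff]
    have h2 : ‖(5 * t : ℤ_[5])‖ < 1 := by
      rw [PadicInt.norm_lt_one_iff_dvd]
      exact ⟨t, by norm_num⟩
    exact h2.ne
  have h3 := IsLocalRing.isUnit_one_sub_self_of_mem_nonunits (-(5 * t)) (by
    rw [mem_nonunits_iff, IsUnit.neg_iff]
    exact h1)
  rwa [sub_neg_eq_add] at h3

theorem unit2 : IsUnit (2 : ℤ_[5]) := by
  have h := unit1 1
  have e : (1 + 5 * 1 : ℤ_[5]) = 2 * 3 := by norm_num
  rw [e] at h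
  exact isUnit_of_mul_isUnit_left h

theorem unit4 : IsUnit (4 : ℤ_[5]) := by
  have e : (4 : ℤ_[5]) = 2 * 2 := by norm_num
  rw [e]
  exact unit2.mul unit2

theorem unit7 : IsUnit (7 : ℤ_[5]) := by
  have h := unit1 4
  have e : (1 + 5 * 4 : ℤ_[5]) = 7 * 3 := by norm_num
  rw [e] at h
  exact isUnit_of_mul_isUnit_left h

variable {N : Subgroup G} (hN : N.Normal)

include hN in
/-- Step 1: conjugate a noncentral element to one with good entries. -/
theorem step1 (hnc : ∃ A ∈ N, ¬ (A.1 0 1 = 0 ∧ A.1 1 0 = 0 ∧ A.1 0 0 = A.1 1 1)) :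
    ∃ A ∈ N, IsUnit (A.1 0 0) ∧ A.1 1 0 ≠ 0 := by
  obtain ⟨A, hA, hnc⟩ := hnc
  have hdet : A.1 0 0 * A.1 1 1 - A.1 0 1 * A.1 1 0 = 1 := by
    have := A.2
    rwa [det_fin_two] at this
  by_cases hc : A.1 1 0 = 0
  · rw [hc, mul_zero, sub_zero] at hdet
    have hd : IsUnit (A.1 1 1) := IsUnit.of_mul_eq_one_right _ hdet
    have ha : IsUnit (A.1 0 0) := IsUnit.of_mul_eq_one _ hdet
    by_cases hb : A.1 0 1 = 0
    · refine ⟨F 1 * A * (F 1)⁻¹, hN.conj_mem A hA _, ?_, ?_⟩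
      · rw [F_inv]
        simp only [mul00, mul01, mul10, mul11, F00, F01, F10, F11, hb, hc]
        simpa using ha
      · rw [F_inv]
        simp only [mul00, mul01, mul10, mul11, F00, F01, F10, F11, hb, hc]
        intro h
        apply hnc
        refine ⟨hb, hc, ?_⟩
        linear_combination h
    · refine ⟨W * A * W⁻¹, hN.conj_mem A hA _, ?_, ?_⟩
      · rw [W_conj00]
        exact hd
      · rw [W_conj10]
        exact neg_ne_zero.mpr hb
  · by_cases ha : IsUnit (A.1 0 0)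
    · exact ⟨A, hA, ha, hc⟩
    · have hcu : IsUnit (A.1 1 0) := by
        have h1 : IsUnit (1 - A.1 0 0 * A.1 1 1) := by
          apply IsLocalRing.isUnit_one_sub_self_of_mem_nonunits
          rw [mem_nonunits_iff]
          intro h
          exact ha (isUnit_of_mul_isUnit_left h)
        have h2 : 1 - A.1 0 0 * A.1 1 1 = A.1 1 0 * (-A.1 0 1) := by linear_combination (-1 : ℤ_[5]) * hdet
        rw [h2] at h1
        exact isUnit_of_mul_isUnit_left h1
      refine ⟨E 1 * A * (E 1)⁻¹, hN.conj_mem A hA _, ?_, ?_⟩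
      · rw [E_inv]
        simp only [mul00, mul01, mul10, mul11, E00, E01, E10, E11]
        have h3 : (1 * A.1 0 0 + 1 * A.1 1 0) * 1 + (1 * A.1 0 1 + 1 * A.1 1 1) * 0 = A.1 0 0 + A.1 1 0 := by ring
        rw [h3]
        by_contra h4
        have h5 := IsLocalRing.nonunits_add (a := A.1 0 0 + A.1 1 0) (b := -A.1 0 0) h4 (by
          rw [mem_nonunits_iff, IsUnit.neg_iff]
          exact ha)
        apply h5
        have h6 : A.1 0 0 + A.1 1 0 + -A.1 0 0 = A.1 1 0 := by ring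
        rw [h6]
        exact hcu
      · rw [E_inv]
        simp only [mul00, mul01, mul10, mul11, E00, E01, E10, E11]
        intro h
        apply hc
        linear_combination h

include hN in
/-- Step 2: a nontrivial lower unipotent element. -/
theorem step2 {A : G} (hA : A ∈ N) (ha : IsUnit (A.1 0 0)) (hc : A.1 1 0 ≠ 0) :
    ∃ e : ℤ_[5], e ≠ 0 ∧ F e ∈ N := by
  obtain ⟨a, ha⟩ := ha
  obtain ⟨u₂, h2⟩ := unit2
  obtain ⟨u₄, h4⟩ := unit4
  obtain ⟨u₇, h7⟩ := unit7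
  rw [decomp A a ha] at hA
  set y := ((a⁻¹ : ℤ_[5]ˣ) : ℤ_[5]) * A.1 1 0 with hy
  set b := A.1 0 1
  have k1 := hN.conj_mem _ (mem_of_mem hN a y b hA u₂) (D u₄)
  have k2 := mem_of_mem hN a y b hA u₇
  have k1' : D u₄ * (F ((((u₂⁻¹ : ℤ_[5]ˣ) : ℤ_[5]) ^ 2 - 1) * y) * E ((a : ℤ_[5]) * (((u₂ : ℤ_[5]) ^ 2 - 1) * b))) * (D u₄)⁻¹
      = F (((u₄⁻¹ : ℤ_[5]ˣ) : ℤ_[5]) ^ 2 * ((((u₂⁻¹ : ℤ_[5]ˣ) : ℤ_[5]) ^ 2 - 1) * y)) * E (48 * a * b) := by
    have : (48 * a * b : ℤ_[5]) = (u₄ : ℤ_[5]) ^ 2 * ((a : ℤ_[5]) * (((u₂ : ℤ_[5]) ^ 2 - 1) * b)) := by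
      rw [h2, h4]; ring
    rw [this, ← D_conj_F, ← D_conj_E]
    group
  rw [k1'] at k1
  have k2' : (a : ℤ_[5]) * (((u₇ : ℤ_[5]) ^ 2 - 1) * b) = 48 * a * b := by
    rw [h7]; ring
  rw [k2'] at k2
  have k3 := N.mul_mem k1 (N.inv_mem k2)
  rw [_root_.mul_inv_rev] at k3
  have k4 : ∀ X Y Z : G, X * Y * (Y⁻¹ * Z⁻¹) = X * Z⁻¹ := by intros; group
  rw [k4, F_inv, F_add] at k3
  have k5 := hN.conj_mem _ k3 (D (u₇ * u₂ * u₄)⁻¹)
  rw [D_conj_F, inv_inv] at k5
  refine ⟨2925 * y, ?_, ?_⟩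
  · apply mul_ne_zero
    · norm_num
    · rw [hy]
      exact mul_ne_zero (Units.ne_zero _) hc
  · convert k5 using 2
    have e2 : (2 : ℤ_[5]) * ((u₂⁻¹ : ℤ_[5]ˣ) : ℤ_[5]) = 1 := by rw [← h2]; exact u₂.mul_inv
    have e4 : (4 : ℤ_[5]) * ((u₄⁻¹ : ℤ_[5]ˣ) : ℤ_[5]) = 1 := by rw [← h4]; exact u₄.mul_inv
    have e7 : (7 : ℤ_[5]) * ((u₇⁻¹ : ℤ_[5]ˣ) : ℤ_[5]) = 1 := by rw [← h7]; exact u₇.mul_inv
    push_cast
    rw [h2, h4, h7]
    generalize ((u₂⁻¹ : ℤ_[5]ˣ) : ℤ_[5]) = a2 at *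
    generalize ((u₄⁻¹ : ℤ_[5]ˣ) : ℤ_[5]) = a4 at *
    generalize ((u₇⁻¹ : ℤ_[5]ˣ) : ℤ_[5]) = a7 at *
    have f4 : a4 ^ 2 * 16 = 1 := by linear_combination (4 * a4 + 1) * e4
    have f2 : a2 ^ 2 * 4 = 1 := by linear_combination (2 * a2 + 1) * e2
    have f7 : a7 ^ 2 * 49 = 1 := by linear_combination (7 * a7 + 1) * e7
    linear_combination (- (49 * y * a4 ^ 2 * 16)) * f2 + (49 * y * 4 - 49 * y) * f4 + (4 * 16 * y) * f7

include hN in
/-- Step 3: an ideal of unipotent elements. -/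
theorem step3 {e : ℤ_[5]} (he : F e ∈ N) (t : ℤ_[5]) : F (t * (20 * e)) ∈ N := by
  obtain ⟨v, hv⟩ := unit1 t
  obtain ⟨w, hw⟩ := unit1 (-t)
  have h1 := hN.conj_mem _ he (D v⁻¹)
  have h2 := hN.conj_mem _ he (D w⁻¹)
  rw [D_conj_F, inv_inv] at h1 h2
  have h3 := N.mul_mem h1 (N.inv_mem h2)
  rw [F_inv, F_add] at h3
  convert h3 using 2
  rw [hv, hw]
  ring

include hN in
/-- Step 4: a congruence subgroup. -/
theorem step4 {f : ℤ_[5]} (hf : ∀ t : ℤ_[5], F (t * f) ∈ N) {A : G} (h5 : (5 : ℤ_[5]) ∣ f)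
    (h00 : f ^ 2 ∣ A.1 0 0 - 1) (h01 : f ^ 2 ∣ A.1 0 1) (h10 : f ^ 2 ∣ A.1 1 0) : A ∈ N := by
  have hE : ∀ t : ℤ_[5], E (t * f) ∈ N := by
    intro t
    have := hN.conj_mem _ (hf (-t)) W
    rw [W_conj'] at this
    convert this using 2
    ring
  obtain ⟨s, hs⟩ := h00
  obtain ⟨b, hb⟩ := h01
  obtain ⟨c, hc⟩ := h10
  obtain ⟨f', hf'⟩ := h5
  obtain ⟨a, ha⟩ : IsUnit (A.1 0 0) := by
    have h1 : A.1 0 0 = 1 + 5 * (f' * f * s) := by
      rw [hf'] at hs ⊢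
      linear_combination hs
    rw [h1]
    exact unit1 _
  have hD : D a ∈ N := by
    have h1 := E_F_decomp a (s * f) (1 * f) (by rw [ha]; linear_combination hs)
    have h2 := N.mul_mem (hE s) (hf 1)
    rw [h1] at h2
    have h3 : F (((a⁻¹ : ℤ_[5]ˣ) : ℤ_[5]) * (1 * f)) ∈ N := by
      convert hf ((a⁻¹ : ℤ_[5]ˣ) : ℤ_[5]) using 2
      ring
    have h4 : E (((a⁻¹ : ℤ_[5]ˣ) : ℤ_[5]) * (s * f)) ∈ N := by
      convert hE (((a⁻¹ : ℤ_[5]ˣ) : ℤ_[5]) * s) using 2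
      ring
    have h5 := (N.mul_mem_cancel_right h4).mp h2
    exact (N.mul_mem_cancel_left h3).mp h5
  rw [decomp A a ha, T_decomp]
  refine N.mul_mem ?_ (N.mul_mem hD ?_)
  · convert hf (((a⁻¹ : ℤ_[5]ˣ) : ℤ_[5]) * f * c) using 2
    rw [hc]
    ring
  · convert hE (((a⁻¹ : ℤ_[5]ˣ) : ℤ_[5]) * f * b) using 2
    rw [hb]
    ring

include hN in
/-- Noncentral normal subgroups have finite index. -/
theorem finite_index (hnc : ∃ A ∈ N, ¬ (A.1 0 1 = 0 ∧ A.1 1 0 = 0 ∧ A.1 0 0 = A.1 1 1)) :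
    Finite (G ⧸ N) := by
  obtain ⟨A, hA, ha, hc⟩ := step1 hN hnc
  obtain ⟨e, he, heN⟩ := step2 hN hA ha hc
  set f := 20 * e with hf
  have hf0 : f ≠ 0 := mul_ne_zero (by norm_num) he
  have hf2 : f ^ 2 ≠ 0 := pow_ne_zero 2 hf0
  have hspec := PadicInt.unitCoeff_spec hf2
  set k := (f ^ 2).valuation with hk
  have hker : (Matrix.SpecialLinearGroup.map (n := Fin 2) (PadicInt.toZModPow (p := 5) k)).ker ≤ N := by
    intro B hB
    rw [MonoidHom.mem_ker] at hB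
    have hij : ∀ i j, PadicInt.toZModPow (p := 5) k (B.1 i j) = (1 : Matrix (Fin 2) (Fin 2) (ZMod (5 ^ k))) i j := by
      intro i j
      have := congrArg (fun X : Matrix.SpecialLinearGroup (Fin 2) (ZMod (5 ^ k)) => X.1 i j) hB
      simpa using this
    have hdv : ∀ x : ℤ_[5], PadicInt.toZModPow (p := 5) k x = 0 → f ^ 2 ∣ x := by
      intro x hx
      rw [← RingHom.mem_ker, PadicInt.ker_toZModPow, Ideal.mem_span_singleton] at hx
      rw [hspec, Units.mul_left_dvd]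
      exact_mod_cast hx
    apply step4 hN (step3 hN heN)
    · exact ⟨4 * e, by ring⟩
    · apply hdv
      rw [map_sub, hij 0 0, map_one]
      simp
    · apply hdv
      rw [hij 0 1]
      simp
    · apply hdv
      rw [hij 1 0]
      simp
  have h1 : (Matrix.SpecialLinearGroup.map (n := Fin 2) (PadicInt.toZModPow (p := 5) k)).ker.FiniteIndex := by
    have : NeZero (5 ^ k) := ⟨by positivity⟩
    infer_instance
  have h2 : N.FiniteIndex := Subgroup.finiteIndex_of_le hker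
  exact Subgroup.finite_quotient_of_finiteIndex

theorem central_countable (hc : ∀ A ∈ N, A.1 0 1 = 0 ∧ A.1 1 0 = 0 ∧ A.1 0 0 = A.1 1 1) :
    Countable N := by
  have key : ∀ A ∈ N, A.1 0 0 = 1 ∨ A.1 0 0 = -1 := by
    intro A hA
    obtain ⟨h1, h2, h3⟩ := hc A hA
    have hdet : A.1 0 0 * A.1 1 1 - A.1 0 1 * A.1 1 0 = 1 := by
      have := A.2
      rwa [det_fin_two] at this
    rw [h1, ← h3, zero_mul, sub_zero] at hdet
    exact mul_self_eq_one_iff.mp hdet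
  have hinj : Function.Injective (fun A : N => (⟨A.1.1 0 0, key A.1 A.2⟩ : ({1, -1} : Set ℤ_[5]))) := by
    intro A B hAB
    have h0 := congrArg Subtype.val hAB
    simp only at h0
    obtain ⟨h1, h2, h3⟩ := hc A.1 A.2
    obtain ⟨k1, k2, k3⟩ := hc B.1 B.2
    apply Subtype.ext
    apply ext2
    · exact h0
    · rw [h1, k1]
    · rw [h2, k2]
    · rw [← h3, ← k3, h0]
  exact hinj.countable

theorem uncountable_G : Uncountable G := by
  have h1 : Uncountable ℤ_[5] := by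
    have h2 : IsOpen {x : ℚ_[5] | ‖x‖ ≤ 1} := by
      have := IsUltrametricDist.isOpen_closedBall (0 : ℚ_[5]) (one_ne_zero (α := ℝ))
      have e : {x : ℚ_[5] | ‖x‖ ≤ 1} = Metric.closedBall (0 : ℚ_[5]) 1 := by
        ext x
        simp
      rw [e]
      exact this
    have h3 := continuum_le_cardinal_of_isOpen ℚ_[5] h2 ⟨0, by simp⟩
    have h4 : Cardinal.aleph0 < Cardinal.mk {x : ℚ_[5] | ‖x‖ ≤ 1} :=
      lt_of_lt_of_le Cardinal.aleph0_lt_continuum h3
    exact Cardinal.aleph0_lt_mk_iff.mp h4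
  have h2 : Function.Injective (E : ℤ_[5] → G) := by
    intro x y hxy
    have := congrArg (fun A : G => A.1 0 1) hxy
    exact this
  exact h2.uncountable

/-- There is an uncountable compact metrizable non-archimedean topological group without a normal
subgroup `N` (Borel, analytic, or not) such that both `N` and `G / N` are uncountable. -/
theorem result : ∃ (G : Type) (_ : Group G) (_ : TopologicalSpace G) (_ : IsTopologicalGroup G),
    CompactSpace G ∧ MetrizableSpace G ∧ NonarchimedeanGroup G ∧ Uncountable G ∧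
    ∀ N : Subgroup G, N.Normal → ¬ (Uncountable N ∧ Uncountable (G ⧸ N)) := by
  have hcl : Topology.IsClosedEmbedding ((↑) : G → Matrix (Fin 2) (Fin 2) ℤ_[5]) :=
    Matrix.SpecialLinearGroup.isClosedEmbedding_val
  have hcomp : CompactSpace (Matrix (Fin 2) (Fin 2) ℤ_[5]) :=
    inferInstanceAs (CompactSpace (Fin 2 → Fin 2 → ℤ_[5]))
  have hmet : MetrizableSpace (Matrix (Fin 2) (Fin 2) ℤ_[5]) :=
    inferInstanceAs (MetrizableSpace (Fin 2 → Fin 2 → ℤ_[5]))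
  have htd : TotallyDisconnectedSpace (Matrix (Fin 2) (Fin 2) ℤ_[5]) :=
    inferInstanceAs (TotallyDisconnectedSpace (Fin 2 → Fin 2 → ℤ_[5]))
  have hG1 : CompactSpace G := hcl.compactSpace
  have hG2 : MetrizableSpace G := hcl.isEmbedding.metrizableSpace
  have hG3 : TotallyDisconnectedSpace G :=
    hcl.isEmbedding.isTotallyDisconnected_range.mp
      (isTotallyDisconnected_of_totallyDisconnectedSpace _)
  refine ⟨G, inferInstance, inferInstance, inferInstance, hG1, hG2, ⟨?_⟩, uncountable_G, ?_⟩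
  · intro U hU
    obtain ⟨O, hOU, hO, h1O⟩ := mem_nhds_iff.mp hU
    obtain ⟨V, hV, h1V, hVx⟩ := compact_exists_isClopen_in_isOpen hO h1O
    obtain ⟨H, hH⟩ := IsTopologicalGroup.exist_openNormalSubgroup_sub_clopen_nhds_of_one hV h1V
    exact ⟨H.toOpenSubgroup, fun x hx => hOU (hVx (hH hx))⟩
  · rintro N hN ⟨h1, h2⟩
    by_cases hnc : ∃ A ∈ N, ¬ (A.1 0 1 = 0 ∧ A.1 1 0 = 0 ∧ A.1 0 0 = A.1 1 1)
    · have := finite_index hN hnc
      exact not_countable_iff.mpr h2 inferInstance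
    · push Not at hnc
      have := central_countable (N := N) (fun A hA => by
        by_contra hc
        exact hc (by
          have := hnc A hA
          tauto))
      exact not_countable_iff.mpr h1 this

end Pool.Agent.Results.MP_847604_al.NoSuchSubgroup
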